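import Mathlib
import Pool.Agent.H26.Ritt1

set_option autoImplicit false

namespace Pool.Agent.Results.MP_600649_an.LogSharp

open Finset Pool.Agent.H26.Ritt1 Filter Topology
open scoped Real

noncomputable def a (j : ℕ) : ℂ := 1 + π * (j + 1) * Complex.I

theorem a_re (j : ℕ) : (a j).re = 1 := by simp [a]

theorem a_im (j : ℕ) : (a j).im = π * (j + 1) := by simp [a]

theorem one_le (l : ℂ) (hl : 0 ≤ l.re) (j : ℕ) : 1 ≤ ‖l + a j‖ :=
  le_trans (by rw [Complex.add_re, a_re]; linarith) (Complex.re_le_norm _)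

theorem ne0 (l : ℂ) (hl : 0 ≤ l.re) (j : ℕ) : l + a j ≠ 0 :=
  norm_pos_iff.mp (one_pos.trans_le (one_le l hl j))

theorem a_ge (j : ℕ) : 1 ≤ ‖a j‖ := by simpa using one_le 0 le_rfl j

theorem a_le (j N : ℕ) (h : j < 2 * N) : ‖a j‖ ≤ 9 * N := by
  have h1 := Complex.norm_le_abs_re_add_abs_im (a j)
  rw [a_re, a_im, abs_one, abs_of_pos (by positivity)] at h1
  have h2 : (j : ℝ) + 1 ≤ 2 * N := by exact_mod_cast h
  have h3 : (1 : ℝ) ≤ N := by exact_mod_cast (by omega : 1 ≤ N)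
  nlinarith [Real.pi_le_four, Real.pi_pos]

theorem psi (x p : ℝ) (h3 : 3 ≤ p) (h4 : p ≤ 4) :
    1 / (1 + x ^ 2) ≤ 4 * ((x + p) / (1 + |x + p|) - x / (1 + |x|)) := by
  rcases abs_cases x with h | h <;> rcases abs_cases (x + p) with g | g <;> rw [h.1, g.1]
  · have := h.2
    rw [div_sub_div _ _ (by linarith) (by linarith), mul_div_assoc',
      div_le_div_iff₀ (by positivity) (by positivity)]
    nlinarith [sq_nonneg (x - 1), mul_nonneg this (sub_nonneg.mpr h3), sq_nonneg x]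
  · linarith [h.2, g.2]
  · have h1 : 1 / (1 + x ^ 2) ≤ 1 := by rw [div_le_one (by positivity)]; nlinarith [sq_nonneg x]
    refine h1.trans ?_
    rw [div_sub_div _ _ (by linarith [g.2]) (by linarith [h.2]), mul_div_assoc',
      le_div_iff₀ (mul_pos (by linarith [g.2]) (by linarith [h.2]))]
    nlinarith [mul_nonneg g.2 (neg_nonneg.mpr h.2.le)]
  · rw [div_sub_div _ _ (by linarith [g.2]) (by linarith [h.2]), mul_div_assoc',
      div_le_div_iff₀ (by positivity) (mul_pos (by linarith [g.2]) (by linarith [h.2]))]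
    nlinarith [sq_nonneg (x + 1), sq_nonneg x, h.2, g.2]

theorem sumsq (l : ℂ) (hl : 0 ≤ l.re) (M : ℕ) : ∑ j ∈ range M, 1 / ‖l + a j‖ ^ 2 ≤ 8 := by
  let ψ : ℕ → ℝ := fun j => (l.im + π * (j + 1)) / (1 + |l.im + π * (j + 1)|)
  have hb : ∀ j, |ψ j| ≤ 1 := fun j => by
    simp only [ψ]
    rw [abs_div, abs_of_pos (a := 1 + _) (by positivity), div_le_one (by positivity)]
    linarith
  calc _ ≤ ∑ j ∈ range M, 4 * (ψ (j + 1) - ψ j) := sum_le_sum fun j _ => by
        have := psi (l.im + π * (j + 1)) π Real.pi_gt_three.le Real.pi_le_four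
        simp only [ψ]
        push_cast
        rw [show l.im + π * (j + 1 + 1) = l.im + π * (j + 1) + π by ring]
        refine le_trans (one_div_le_one_div_of_le (by positivity) ?_) this
        rw [Complex.sq_norm, Complex.normSq_apply, Complex.add_re, Complex.add_im, a_re, a_im]
        nlinarith
    _ ≤ 8 := by
        rw [← mul_sum, sum_range_sub]
        linarith [abs_le.mp (hb M), abs_le.mp (hb 0)]

theorem alt (l : ℂ) (hl : 0 ≤ l.re) (N : ℕ) :
    ‖∑ j ∈ range (2 * N), (-1) ^ (j + 1) / (l + a j)‖ ≤ 16 := by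
  suffices h : ‖∑ j ∈ range (2 * N), (-1) ^ (j + 1) / (l + a j)‖ ≤
      2 * ∑ j ∈ range (2 * N), 1 / ‖l + a j‖ ^ 2 by linarith [sumsq l hl (2 * N)]
  induction N with
  | zero => simp
  | succ N ih =>
    rw [show 2 * (N + 1) = 2 * N + 1 + 1 by ring, sum_range_succ, sum_range_succ, sum_range_succ,
      sum_range_succ, add_assoc]
    refine (norm_add_le _ _).trans ?_
    have h1 := ne0 l hl (2 * N)
    have h2 := ne0 l hl (2 * N + 1)
    have e : (-1) ^ (2 * N + 1) / (l + a (2 * N)) + (-1) ^ (2 * N + 1 + 1) / (l + a (2 * N + 1)) =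
        -(π * Complex.I) / ((l + a (2 * N)) * (l + a (2 * N + 1))) := by
      rw [pow_succ _ (2 * N + 1), pow_succ, pow_mul]
      field_simp
      simp only [a]; push_cast; ring
    rw [e, norm_div, norm_neg, norm_mul, norm_mul, Complex.norm_I, Complex.norm_real,
      Real.norm_of_nonneg Real.pi_pos.le]
    have g1 := norm_pos_iff.mpr h1
    have g2 := norm_pos_iff.mpr h2
    generalize ‖l + a (2 * N)‖ = u at *
    generalize ‖l + a (2 * N + 1)‖ = v at *
    have : π * 1 / (u * v) ≤ 2 * (1 / u ^ 2 + 1 / v ^ 2) := by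
      rw [div_add_div _ _ (by positivity) (by positivity), mul_div_assoc',
        div_le_div_iff₀ (by positivity) (by positivity)]
      have := mul_pos g1 g2
      nlinarith [Real.pi_le_four, mul_nonneg this.le (sq_nonneg (u - v)), mul_pos this this]
    linarith

noncomputable def zt (m : ℝ) (j : ℕ) : ℂ := (m - a j) / (m + a j)

noncomputable def ζ (m : ℝ) (N : ℕ) : Option (Fin (2 * N)) → ℂ
  | none => 0
  | some j => zt m j

noncomputable def L (κ : ℝ) (N : ℕ) : (Option (Fin (2 * N)) → ℂ) →ₗ[ℂ] ℂ where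
  toFun f := κ * ∑ j : Fin (2 * N), (-1) ^ (j.val + 1) / a j * (f (some j) - f none)
  map_add' f g := by
    rw [← mul_add, ← sum_add_distrib]; congr 1
    exact sum_congr rfl fun j _ => by simp only [Pi.add_apply]; ring
  map_smul' c f := by
    simp only [RingHom.id_apply, smul_eq_mul, Pi.smul_apply, mul_sum]
    exact sum_congr rfl fun j _ => by ring

theorem L_eq (κ : ℝ) (N : ℕ) (f : Option (Fin (2 * N)) → ℂ) (g : ℕ → ℂ)
    (h : ∀ j : Fin (2 * N), f (some j) = g j) :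
    L κ N f = κ * (∑ j ∈ range (2 * N), (-1) ^ (j + 1) / a j * g j -
      f none * ∑ j ∈ range (2 * N), (-1) ^ (j + 1) / (0 + a j)) := by
  change κ * ∑ j : Fin (2 * N), (-1) ^ (j.val + 1) / a j * (f (some j) - f none) = _
  simp only [h]
  rw [Fin.sum_univ_eq_sum_range (fun j => (-1) ^ (j + 1) / a j * (g j - f none)), mul_sum,
    mul_sum (a := f none), ← sum_sub_distrib, mul_sum]
  exact sum_congr rfl fun j _ => by ring

theorem L_le (κ : ℝ) (hκ : 0 ≤ κ) (N : ℕ) (f : Option (Fin (2 * N)) → ℂ) (g : ℕ → ℂ)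
    (h : ∀ j : Fin (2 * N), f (some j) = g j) (B D : ℝ)
    (h1 : ‖∑ j ∈ range (2 * N), (-1) ^ (j + 1) / a j * g j‖ ≤ B) (h2 : ‖f none‖ ≤ D) :
    ‖L κ N f‖ ≤ κ * (B + D * 16) := by
  rw [L_eq κ N f g h, norm_mul, Complex.norm_real, Real.norm_of_nonneg hκ]
  refine mul_le_mul_of_nonneg_left ((norm_sub_le _ _).trans (add_le_add h1 ?_)) hκ
  rw [norm_mul]
  exact mul_le_mul h2 (alt 0 le_rfl N) (norm_nonneg _) ((norm_nonneg _).trans h2)

theorem lam (m : ℝ) (hm : 0 < m) (z : ℂ) (hz : 1 < ‖z‖) : ∃ l : ℂ, 0 ≤ l.re ∧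
    ∀ j, (z - 1) / (z - zt m j) = (1 + a j / m) * (l / (l + a j)) := by
  have h1 : z + 1 ≠ 0 := fun e => by
    rw [eq_neg_of_add_eq_zero_left e] at hz; simp at hz
  have hre : 0 ≤ (m * ((z - 1) / (z + 1))).re := by
    rw [Complex.re_ofReal_mul, Complex.div_re]
    have := Complex.normSq_pos.mpr h1
    have h2 : 1 < ‖z‖ ^ 2 := by nlinarith
    rw [Complex.sq_norm, Complex.normSq_apply] at h2
    rw [← add_div]
    refine mul_nonneg hm.le (div_nonneg ?_ this.le)
    simp; nlinarith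
  refine ⟨_, hre, fun j => ?_⟩
  have h2 := ne0 _ hre j
  have h3 : (m : ℂ) + a j ≠ 0 := ne0 m (by simpa using hm.le) j
  have h4 : (m : ℂ) ≠ 0 := by exact_mod_cast hm.ne'
  have e : z - zt m j = (z + 1) * (m * ((z - 1) / (z + 1)) + a j) / (m + a j) := by
    rw [zt]; field_simp; ring
  rw [e]
  generalize m * ((z - 1) / (z + 1)) + a j = w at *
  field_simp

theorem r0 (z : ℂ) (hz : 1 < ‖z‖) : ‖(z - 1) / (z - 0)‖ ≤ 2 := by
  rw [sub_zero, norm_div, div_le_iff₀ (by linarith)]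
  have := norm_sub_le z 1
  rw [norm_one] at this
  linarith

theorem q1 (l : ℂ) (hl : 0 ≤ l.re) (j : ℕ) : ‖l / (l + a j)‖ ≤ 1 + ‖a j‖ / ‖l + a j‖ := by
  rw [show l / (l + a j) = 1 - a j / (l + a j) by have := ne0 l hl j; field_simp; ring]
  simpa using norm_sub_le 1 (a j / (l + a j))

theorem q2 (l : ℂ) (hl : 0 ≤ l.re) (j N : ℕ) (h : j < 2 * N) : ‖l / (l + a j)‖ ≤ 10 * N := by
  have h3 : (1 : ℝ) ≤ N := by exact_mod_cast (by omega : 1 ≤ N)
  linarith [q1 l hl j, div_le_self (norm_nonneg (a j)) (one_le l hl j), a_le j N h]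

theorem q3 (m : ℝ) (j N : ℕ) (h : j < 2 * N) (hm : 20 * (N : ℝ) ^ 2 ≤ m) : ‖1 + a j / m‖ ≤ 2 := by
  have h3 : (1 : ℝ) ≤ N := by exact_mod_cast (by omega : 1 ≤ N)
  have h0 : 0 < m := by nlinarith
  have : ‖a j / m‖ ≤ 1 := by
    rw [norm_div, Complex.norm_real, Real.norm_of_nonneg h0.le, div_le_one h0]
    nlinarith [a_le j N h]
  linarith [norm_add_le 1 (a j / m), norm_one (α := ℂ)]

theorem sq_bound (m : ℝ) (N : ℕ) (hN : 1 ≤ N) (hm : 20 * (N : ℝ) ^ 2 ≤ m) (z : ℂ) (hz : 1 < ‖z‖) :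
    ∑ j ∈ range (2 * N), ‖(z - 1) / (z - zt m j)‖ ^ 2 / ‖a j‖ ≤ 592 * N := by
  have h3 : (1 : ℝ) ≤ N := by exact_mod_cast hN
  obtain ⟨l, hl, e⟩ := lam m (by nlinarith) z hz
  calc _ ≤ ∑ j ∈ range (2 * N), (8 + 72 * N * (1 / ‖l + a j‖ ^ 2)) := sum_le_sum fun j hj => by
        have hj := mem_range.mp hj
        have g1 := q1 l hl j
        have g2 := q3 m j N hj hm
        have g3 := a_ge j
        have g4 := a_le j N hj
        have g5 := one_le l hl j
        rw [e, norm_mul, div_le_iff₀ (by linarith)]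
        have g6 : ‖1 + a j / m‖ * ‖l / (l + a j)‖ ≤ 2 * (1 + ‖a j‖ / ‖l + a j‖) :=
          mul_le_mul g2 g1 (norm_nonneg _) (by norm_num)
        refine (pow_le_pow_left₀ (by positivity) g6 2).trans ?_
        rw [div_eq_mul_one_div, ← one_div_pow]
        have g7 : 0 ≤ 1 / ‖l + a j‖ := by positivity
        generalize 1 / ‖l + a j‖ = t at *
        generalize ‖a j‖ = s at *
        nlinarith [sq_nonneg (1 - s * t), mul_nonneg (mul_nonneg (sq_nonneg t) (by linarith : 0 ≤ s))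
          (sub_nonneg.mpr g4)]
    _ ≤ _ := by
        rw [sum_add_distrib, ← mul_sum, sum_const, card_range, nsmul_eq_mul]
        push_cast
        nlinarith [sumsq l hl (2 * N)]

theorem one_bound (m : ℝ) (N : ℕ) (hN : 1 ≤ N) (hm : 20 * (N : ℝ) ^ 2 ≤ m) (z : ℂ) (hz : 1 < ‖z‖) :
    ‖∑ j ∈ range (2 * N), (-1) ^ (j + 1) / a j * ((z - 1) / (z - zt m j))‖ ≤ 33 := by
  have h3 : (1 : ℝ) ≤ N := by exact_mod_cast hN
  have h0 : 0 < m := by nlinarith
  obtain ⟨l, hl, e⟩ := lam m h0 z hz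
  have e2 : ∑ j ∈ range (2 * N), (-1) ^ (j + 1) / a j * ((z - 1) / (z - zt m j)) =
      ∑ j ∈ range (2 * N), (-1) ^ (j + 1) / (0 + a j) - ∑ j ∈ range (2 * N), (-1) ^ (j + 1) / (l + a j)
      + ∑ j ∈ range (2 * N), (-1) ^ (j + 1) / m * (l / (l + a j)) := by
    rw [← sum_sub_distrib, ← sum_add_distrib]
    refine sum_congr rfl fun j _ => ?_
    have h1 := ne0 l hl j
    have h2 : a j ≠ 0 := by simpa using ne0 0 le_rfl j
    have h4 : (m : ℂ) ≠ 0 := by exact_mod_cast h0.ne'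
    rw [e, zero_add]; field_simp; ring
  have h4 : ‖∑ j ∈ range (2 * N), (-1) ^ (j + 1) / (m : ℂ) * (l / (l + a j))‖ ≤ 1 := by
    refine (norm_sum_le_of_le _ (n := fun _ => 1 / m * (10 * N)) fun j hj => ?_).trans ?_
    · rw [norm_mul]
      refine mul_le_mul (by simp [abs_of_pos h0]) (q2 l hl j N (mem_range.mp hj)) (norm_nonneg _)
        (by positivity)
    · rw [sum_const, card_range, nsmul_eq_mul]
      push_cast
      rw [show 2 * (N : ℝ) * (1 / m * (10 * N)) = 20 * N ^ 2 / m by ring, div_le_one h0]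
      exact hm
  rw [e2]
  linarith [norm_add_le (∑ j ∈ range (2 * N), (-1) ^ (j + 1) / (0 + a j) -
    ∑ j ∈ range (2 * N), (-1) ^ (j + 1) / (l + a j))
    (∑ j ∈ range (2 * N), (-1) ^ (j + 1) / (m : ℂ) * (l / (l + a j))),
    norm_sub_le (∑ j ∈ range (2 * N), (-1) ^ (j + 1) / (0 + a j))
    (∑ j ∈ range (2 * N), (-1) ^ (j + 1) / (l + a j)), alt 0 le_rfl N, alt l hl N]

theorem pt (m C : ℝ) (N : ℕ) (hN : 1 ≤ N) (hm : 20 * (N : ℝ) ^ 2 ≤ m) (hC : 20 * N ≤ C) (z : ℂ)
    (hz : 1 < ‖z‖) (i : Option (Fin (2 * N))) : ‖r (ζ m N) C z i‖ ≤ 1 := by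
  have h3 : (1 : ℝ) ≤ N := by exact_mod_cast hN
  rw [r, norm_div, Complex.norm_real, Real.norm_of_nonneg (by linarith), div_le_one (by linarith)]
  rcases i with _ | j
  · exact (r0 z hz).trans (by linarith)
  · obtain ⟨l, hl, e⟩ := lam m (by nlinarith) z hz
    rw [ζ, e, norm_mul]
    linarith [mul_le_mul (q3 m j N j.2 hm) (q2 l hl j N j.2) (norm_nonneg _) (by norm_num)]

theorem prods (m C : ℝ) (N : ℕ) (hN : 1 ≤ N) (hm : 20 * (N : ℝ) ^ 2 ≤ m) (hC : 20 * N ≤ C)
    (l : List ℂ) (hl : ∀ z ∈ l, 1 < ‖z‖) : ‖L (C / 65) N (l.map (r (ζ m N) C)).prod‖ ≤ 1 := by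
  have h3 : (1 : ℝ) ≤ N := by exact_mod_cast hN
  have h0 : 0 < C := by linarith
  have nC : ‖(C : ℂ)‖ = C := by rw [Complex.norm_real, Real.norm_of_nonneg h0.le]
  have hp : ∀ l : List ℂ, (∀ z ∈ l, 1 < ‖z‖) → ∀ i, ‖(l.map (r (ζ m N) C)).prod i‖ ≤ 1 := by
    intro l hl i
    induction l with
    | nil => simp
    | cons z l ih =>
      rw [List.map_cons, List.prod_cons, Pi.mul_apply, norm_mul]
      exact mul_le_one₀ (pt m C N hN hm hC z (hl z List.mem_cons_self) i) (norm_nonneg _)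
        (ih fun w hw => hl w (List.mem_cons_of_mem _ hw))
  match l, hl with
  | [], _ => simp [L]
  | [z], hl =>
    have hz := hl z List.mem_cons_self
    refine (L_le _ (by positivity) N _ (fun j => (z - 1) / (z - zt m j) / C)
      (fun j => by simp [r, ζ]) (33 / C) (2 / C) ?_ ?_).trans (le_of_eq (by field_simp; norm_num))
    · simp only [← mul_div_assoc _ _ (C : ℂ), ← sum_div]
      rw [norm_div, nC]
      exact div_le_div_of_nonneg_right (one_bound m N hN hm z hz) h0.le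
    · simp only [List.map_cons, List.map_nil, List.prod_cons, List.prod_nil, mul_one, r, ζ]
      rw [norm_div, nC]
      exact div_le_div_of_nonneg_right (r0 z hz) h0.le
  | z :: w :: l, hl =>
    have hz := hl z List.mem_cons_self
    have hw := hl w (by simp)
    have hl' := hp l fun v hv => hl v (by simp [hv])
    let g : ℕ → ℂ := fun j => if h : j < 2 * N then
      ((z :: w :: l).map (r (ζ m N) C)).prod (some ⟨j, h⟩) else 0
    refine (L_le _ (by positivity) N _ g (fun j => by simp only [g, dif_pos j.2])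
      (592 * N / C ^ 2) (4 / C ^ 2) ?_ ?_).trans ?_
    · refine (norm_sum_le_of_le _ (n := fun j => (‖(z - 1) / (z - zt m j)‖ ^ 2 / ‖a j‖ +
        ‖(w - 1) / (w - zt m j)‖ ^ 2 / ‖a j‖) / (2 * C ^ 2)) fun j hj => ?_).trans ?_
      · have hj := mem_range.mp hj
        simp only [g, dif_pos hj, List.map_cons, List.prod_cons, Pi.mul_apply, r, ζ]
        rw [norm_mul, norm_mul, norm_mul, norm_div _ (C : ℂ), norm_div _ (C : ℂ), nC, norm_div,
          norm_pow, norm_neg, norm_one, one_pow]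
        have g1 := hl' (some ⟨j, hj⟩)
        have g2 : 0 < ‖a j‖ := one_pos.trans_le (a_ge j)
        have g3 := norm_nonneg ((z - 1) / (z - zt m j))
        have g4 := norm_nonneg ((w - 1) / (w - zt m j))
        generalize ‖(z - 1) / (z - zt m j)‖ = u at *
        generalize ‖(w - 1) / (w - zt m j)‖ = v at *
        refine le_trans (b := 1 / ‖a j‖ * (u / C * (v / C * 1))) (by gcongr) ?_
        rw [← add_div, div_div, show 1 / ‖a j‖ * (u / C * (v / C * 1)) =
          2 * u * v / (‖a j‖ * (2 * C ^ 2)) by field_simp]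
        exact div_le_div_of_nonneg_right (by nlinarith [sq_nonneg (u - v)]) (by positivity)
      · rw [← sum_div, sum_add_distrib, div_le_div_iff₀ (by positivity) (by positivity)]
        nlinarith [sq_bound m N hN hm z hz, sq_bound m N hN hm w hw, sq_nonneg C]
    · simp only [List.map_cons, List.prod_cons, Pi.mul_apply, r, ζ]
      rw [norm_mul, norm_mul, norm_div _ (C : ℂ), norm_div _ (C : ℂ), nC]
      have g1 := hl' none
      have g2 := r0 z hz
      have g3 := r0 w hw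
      refine le_trans (b := 2 / C * (2 / C * 1)) (by gcongr) (le_of_eq (by field_simp; norm_num))
    · rw [show C / 65 * (592 * N / C ^ 2 + 4 / C ^ 2 * 16) = (592 * N + 64) / (65 * C) by
        field_simp; norm_num, div_le_one (by positivity)]
      linarith

theorem zt_le (m : ℝ) (hm : 0 ≤ m) (j : ℕ) : ‖zt m j‖ ≤ 1 := by
  rw [zt, norm_div]
  refine div_le_one_of_le₀ ?_ (norm_nonneg _)
  rw [← sq_le_sq₀ (norm_nonneg _) (norm_nonneg _), Complex.sq_norm, Complex.sq_norm,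
    Complex.normSq_apply, Complex.normSq_apply]
  simp [a_re]
  nlinarith

theorem zt_lim (j : ℕ) : Tendsto (fun n : ℕ => zt (2 * n) j ^ n) atTop
    (𝓝 (Real.exp (-1) * (-1) ^ (j + 1))) := by
  have h1 := (Complex.tendsto_one_add_div_pow_exp (-(a j / 2))).div
    (Complex.tendsto_one_add_div_pow_exp (a j / 2)) (Complex.exp_ne_zero _)
  have e : Complex.exp (-(a j / 2)) / Complex.exp (a j / 2) = Real.exp (-1) * (-1) ^ (j + 1) := by
    rw [← Complex.exp_sub, show -(a j / 2) - a j / 2 = (-1 : ℝ) + ((j + 1 : ℕ) : ℂ) * (-(π * Complex.I)) by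
      simp only [a]; push_cast; ring, Complex.exp_add, Complex.exp_nat_mul, Complex.exp_neg,
      Complex.exp_pi_mul_I, Complex.ofReal_exp]
    norm_num
  rw [e] at h1
  refine h1.congr' ?_
  filter_upwards [eventually_gt_atTop 0] with n hn
  have h2 : (n : ℂ) ≠ 0 := by exact_mod_cast hn.ne'
  have h3 : (2 * n : ℂ) + a j ≠ 0 := ne0 _ (by simp) j
  simp only [Pi.div_apply, zt]
  rw [← div_pow]
  congr 1
  push_cast
  rw [show 1 + a j / 2 / (n : ℂ) = (2 * n + a j) / (2 * n) by field_simp]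
  field_simp
  ring

theorem harm (M : ℕ) : Real.log (M + 1) / 8 ≤ ‖∑ j ∈ range M, 1 / a j‖ := by
  refine le_trans ?_ ((neg_le_abs _).trans (Complex.abs_im_le_norm _))
  rw [Complex.im_sum, ← sum_neg_distrib]
  have h1 := log_add_one_le_harmonic M
  simp only [harmonic, Rat.cast_sum, Rat.cast_inv, Rat.cast_natCast] at h1
  push_cast at h1
  refine (div_le_div_of_nonneg_right h1 (by norm_num)).trans ?_
  rw [sum_div]
  refine sum_le_sum fun j _ => ?_
  rw [one_div, Complex.inv_im, Complex.normSq_apply, a_re, a_im, neg_div, neg_neg, inv_eq_one_div,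
    div_div, div_le_div_iff₀ (by positivity) (by positivity)]
  have h2 : (1 : ℝ) ≤ (j + 1) ^ 2 := by nlinarith [(Nat.cast_nonneg j : (0 : ℝ) ≤ j)]
  have h3 : π * π ≤ 4 * π := by nlinarith [Real.pi_le_four, Real.pi_pos]
  nlinarith [Real.pi_gt_three]

/-- The bound `C log (1 + C)` on the powers of Ritt operators is attained up to a constant,
already in finite dimension. -/
theorem result : ∃ c C₀ : ℝ, 0 < c ∧ 1 ≤ C₀ ∧ ∀ C, C₀ ≤ C →
    ∃ (X : Type) (_ : NormedAddCommGroup X) (_ : NormedSpace ℂ X) (_ : FiniteDimensional ℂ X)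
      (T : X →L[ℂ] X), spectrum ℂ T ⊆ Metric.closedBall 0 1 ∧
      (∀ z : ℂ, 1 < ‖z‖ → ‖(z - 1) • resolvent T z‖ ≤ C) ∧
      ∃ n : ℕ, c * C * Real.log (1 + C) ≤ ‖T ^ n‖ := by
  refine ⟨1 / 6240, 200, by norm_num, by norm_num, fun C hC => ?_⟩
  set N := ⌊C / 20⌋₊
  have h1 : (N : ℝ) ≤ C / 20 := Nat.floor_le (by linarith)
  have h2 : C / 20 < N + 1 := Nat.lt_floor_add_one _
  have hN : 1 ≤ N := by exact_mod_cast (show (1 : ℝ) ≤ N by linarith)
  have lim : Tendsto (fun n : ℕ => ‖((C / 65 : ℝ) : ℂ) *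
      ∑ j ∈ range (2 * N), (-1) ^ (j + 1) / a j * zt (2 * n) j ^ n‖) atTop
      (𝓝 ‖((C / 65 : ℝ) : ℂ) * ∑ j ∈ range (2 * N),
        (-1) ^ (j + 1) / a j * (Real.exp (-1) * (-1) ^ (j + 1))‖) :=
    ((tendsto_finset_sum _ fun j _ => (zt_lim j).const_mul _).const_mul _).norm
  have e : ∑ j ∈ range (2 * N), (-1) ^ (j + 1) / a j * ((Real.exp (-1) : ℂ) * (-1) ^ (j + 1)) =
      Real.exp (-1) * ∑ j ∈ range (2 * N), 1 / a j := by
    rw [mul_sum]
    refine sum_congr rfl fun j _ => ?_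
    rcases neg_one_pow_eq_or ℂ (j + 1) with h | h <;> rw [h] <;> ring
  have hlog : Real.log (1 + C) ≤ 2 * Real.log ((2 * N : ℕ) + 1) := by
    rw [← Real.log_rpow (by positivity), Real.rpow_two]
    refine Real.log_le_log (by linarith) ?_
    push_cast
    nlinarith
  have hl0 : 0 < Real.log (1 + C) := Real.log_pos (by linarith)
  have hexp : 1 / 3 ≤ Real.exp (-1) := by
    rw [Real.exp_neg, ← one_div]
    exact one_div_le_one_div_of_le (Real.exp_pos 1) (by linarith [Real.exp_one_lt_d9])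
  have hlt : 1 / 6240 * C * Real.log (1 + C) < ‖((C / 65 : ℝ) : ℂ) * ∑ j ∈ range (2 * N),
      (-1) ^ (j + 1) / a j * (Real.exp (-1) * (-1) ^ (j + 1))‖ := by
    rw [e, norm_mul, norm_mul, Complex.norm_real, Complex.norm_real,
      Real.norm_of_nonneg (by linarith), Real.norm_of_nonneg (Real.exp_pos _).le]
    have h3 : 1 / 3 * (Real.log (1 + C) / 16) ≤ Real.exp (-1) * ‖∑ j ∈ range (2 * N), 1 / a j‖ :=
      mul_le_mul hexp (by linarith [harm (2 * N)]) (by positivity) (Real.exp_pos _).le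
    nlinarith [mul_pos (show 0 < C by linarith) hl0]
  obtain ⟨n, hn1, hn2, hn3⟩ := ((lim.eventually (lt_mem_nhds hlt)).and
    ((eventually_ge_atTop (10 * N ^ 2)).and (eventually_gt_atTop 0))).exists
  have hm : 20 * (N : ℝ) ^ 2 ≤ 2 * n := by
    have : (10 * N ^ 2 : ℝ) ≤ n := by exact_mod_cast hn2
    linarith
  obtain ⟨X, i1, i2, i3, T, t1, t2, t3⟩ := model (ζ (2 * n) N) (L (C / 65) N) C (by linarith)
    (by rintro (_ | j); exacts [by simp [ζ], zt_le _ (by positivity) _])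
    (pt _ C N hN hm (by linarith)) (prods _ C N hN hm (by linarith))
  refine ⟨X, i1, i2, i3, T, t1, t2, n, hn1.le.trans (le_trans (le_of_eq ?_) (t3 n))⟩
  rw [L_eq _ N _ (fun j => zt (2 * n) j ^ n) fun j => rfl]
  simp [ζ, hn3.ne']

end Pool.Agent.Results.MP_600649_an.LogSharp
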